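import Pool.Agent.Lib.MP_fbfa44_gt.Idx47.DivChart

/-!
# MP_fbfa44_gt: the divergence theorem in a chart for a scalar function

`IsPar.div_scalar`: `f` a `C^1` function with compact support in the parameter set `U`, `T` a fixed
vector of `E`, `ξ z` the parameter vector with `dF (ξ z) = T - ⟨T,F⟩F - ⟨T,ν⟩ν`.  Then
`∫_U J (df(ξ) - m f ⟨T, F⟩) = 0`.
-/

namespace Idx47

open Function MeasureTheory Module

open scoped InnerProductSpace Topology

variable {m : ℕ} {E : Type*} [NormedAddCommGroup E] [InnerProductSpace ℝ E]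
  {U : Set (EuclideanSpace ℝ (Fin m))} {F ν : EuclideanSpace ℝ (Fin m) → E}

/-- every vector is tangent part + normal parts, and the tangent part is in the range of `dF` -/
theorem IsPar.exists_tangent (h : IsPar U F ν) (e : OrthonormalBasis (Fin m ⊕ Fin 2) ℝ E)
    {z} (hz : z ∈ U) (T : E) :
    ∃ ξ : EuclideanSpace ℝ (Fin m), fderiv ℝ F z ξ = T - ⟪T, F z⟫_ℝ • F z - ⟪T, ν z⟫_ℝ • ν z := by
  refine ⟨∑ i, (h.basis e hz).repr T (Sum.inl i) • EuclideanSpace.single i (1 : ℝ), ?_⟩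
  have h1 := (h.basis e hz).sum_repr T
  rw [Fintype.sum_sum_type, Fin.sum_univ_two, h.coe_basis e hz, h.repr0 e hz, h.repr1 e hz] at h1
  simp only [IsPar.frame_inl, IsPar.frame_inr0, IsPar.frame_inr1] at h1
  rw [map_sum]
  simp only [map_smul]
  have h2 : ∀ A B C : E, A + (B + C) = T → A = T - B - C := by
    intro A B C hABC
    rw [← hABC]; abel
  exact h2 _ _ _ h1

/-- the left inverse of `dF` that kills `F` and `ν` -/
noncomputable def IsPar.linv (h : IsPar U F ν) (e : OrthonormalBasis (Fin m ⊕ Fin 2) ℝ E)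
    {z} (hz : z ∈ U) : E →ₗ[ℝ] EuclideanSpace ℝ (Fin m) :=
  (h.basis e hz).constr ℝ (Sum.elim (fun i => EuclideanSpace.single i (1 : ℝ)) (fun _ => 0))

theorem IsPar.linv_F (h : IsPar U F ν) (e : OrthonormalBasis (Fin m ⊕ Fin 2) ℝ E)
    {z} (hz : z ∈ U) : h.linv e hz (F z) = 0 := by
  have h1 : F z = h.basis e hz (Sum.inr 0) := by rw [h.coe_basis e hz]; rfl
  rw [h1, IsPar.linv, Basis.constr_basis]
  rfl

theorem IsPar.linv_ν (h : IsPar U F ν) (e : OrthonormalBasis (Fin m ⊕ Fin 2) ℝ E)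
    {z} (hz : z ∈ U) : h.linv e hz (ν z) = 0 := by
  have h1 : ν z = h.basis e hz (Sum.inr 1) := by rw [h.coe_basis e hz]; rfl
  rw [h1, IsPar.linv, Basis.constr_basis]
  rfl

theorem IsPar.linv_dF (h : IsPar U F ν) (e : OrthonormalBasis (Fin m ⊕ Fin 2) ℝ E)
    {z} (hz : z ∈ U) (ξ : EuclideanSpace ℝ (Fin m)) : h.linv e hz (fderiv ℝ F z ξ) = ξ := by
  have h0 : ∀ i : Fin m, h.linv e hz (fderiv ℝ F z (EuclideanSpace.single i (1 : ℝ)))
      = EuclideanSpace.single i (1 : ℝ) := by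
    intro i
    have h1 : fderiv ℝ F z (EuclideanSpace.single i (1 : ℝ)) = h.basis e hz (Sum.inl i) := by
      rw [h.coe_basis e hz]; rfl
    rw [h1, IsPar.linv, Basis.constr_basis]
    rfl
  have h2 : (h.linv e hz) ∘ₗ (fderiv ℝ F z).toLinearMap = LinearMap.id := by
    refine (EuclideanSpace.basisFun (Fin m) ℝ).toBasis.ext fun i => ?_
    simpa using h0 i
  exact congrArg (fun L => L ξ) h2

/-- the tangential derivative of the normal -/
noncomputable def IsPar.shape (h : IsPar U F ν) (e : OrthonormalBasis (Fin m ⊕ Fin 2) ℝ E)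
    {z} (hz : z ∈ U) : E →ₗ[ℝ] E :=
  (fderiv ℝ ν z).toLinearMap ∘ₗ h.linv e hz

/-- **Divergence theorem in a chart for tangential fields** (no minimality needed). -/
theorem IsPar.div_tangent (h : IsPar U F ν) (e : OrthonormalBasis (Fin m ⊕ Fin 2) ℝ E)
    {V : EuclideanSpace ℝ (Fin m) → E} (hV : ContDiffOn ℝ 1 V U) (hVc : HasCompactSupport V)
    (hVs : tsupport V ⊆ U) (hVF : ∀ z ∈ U, ⟪V z, F z⟫_ℝ = 0) (hVν : ∀ z ∈ U, ⟪V z, ν z⟫_ℝ = 0)
    (D : EuclideanSpace ℝ (Fin m) → E →ₗ[ℝ] E)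
    (hD : ∀ z ∈ U, ∀ ξ, D z (fderiv ℝ F z ξ) = fderiv ℝ V z ξ)
    (hD0 : ∀ z ∈ U, D z (F z) = 0) (hD1 : ∀ z ∈ U, D z (ν z) = 0) :
    IntegrableOn (fun z => (fderiv ℝ F z).toLinearMap.normDet * LinearMap.trace ℝ E (D z)) U ∧
    ∫ z in U, (fderiv ℝ F z).toLinearMap.normDet * LinearMap.trace ℝ E (D z) = 0 := by
  classical
  obtain ⟨h1, h2, h3⟩ := h.div_integral_gen e hV hVc hVs D
    (fun z => if hz : z ∈ U then h.shape e hz else 0) hD hD0 hD1
    (by
      intro z hz ξ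
      rw [dif_pos hz, IsPar.shape, LinearMap.comp_apply]
      change fderiv ℝ ν z (h.linv e hz (fderiv ℝ F z ξ)) = _
      rw [h.linv_dF e hz])
    (by
      intro z hz
      rw [dif_pos hz, IsPar.shape, LinearMap.comp_apply, h.linv_F e hz, map_zero])
    (by
      intro z hz
      rw [dif_pos hz, IsPar.shape, LinearMap.comp_apply, h.linv_ν e hz, map_zero])
  have hEq : ∀ z ∈ U, (fderiv ℝ F z).toLinearMap.normDet *
        (LinearMap.trace ℝ E (D z) - m * ⟪V z, F z⟫_ℝ
          - LinearMap.trace ℝ E (if hz : z ∈ U then h.shape e hz else 0) * ⟪V z, ν z⟫_ℝ)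
      = (fderiv ℝ F z).toLinearMap.normDet * LinearMap.trace ℝ E (D z) := by
    intro z hz
    rw [hVF z hz, hVν z hz, mul_zero, mul_zero, sub_zero, sub_zero]
  constructor
  · refine h1.integrableOn.congr_fun ?_ h.op.measurableSet
    intro z hz
    exact (h2 z hz).trans (hEq z hz)
  · rw [← h3]
    exact setIntegral_congr_fun h.op.measurableSet fun z hz => (hEq z hz).symm

/-- **Divergence theorem in a chart for scalar functions.** -/
theorem IsPar.div_scalar (h : IsPar U F ν) (e : OrthonormalBasis (Fin m ⊕ Fin 2) ℝ E)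
    (S : EuclideanSpace ℝ (Fin m) → E →ₗ[ℝ] E)
    (hS : ∀ z ∈ U, ∀ ξ, S z (fderiv ℝ F z ξ) = fderiv ℝ ν z ξ)
    (hS0 : ∀ z ∈ U, S z (F z) = 0) (hS1 : ∀ z ∈ U, S z (ν z) = 0)
    (hmin : ∀ z ∈ U, LinearMap.trace ℝ E (S z) = 0)
    {f : EuclideanSpace ℝ (Fin m) → ℝ} (hf : ContDiffOn ℝ 1 f U) (hfc : HasCompactSupport f)
    (hfs : tsupport f ⊆ U) (T : E) (ξ : EuclideanSpace ℝ (Fin m) → EuclideanSpace ℝ (Fin m))
    (hξ : ∀ z ∈ U, fderiv ℝ F z (ξ z) = T - ⟪T, F z⟫_ℝ • F z - ⟪T, ν z⟫_ℝ • ν z) :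
    IntegrableOn (fun z => (fderiv ℝ F z).toLinearMap.normDet *
      (fderiv ℝ f z (ξ z) - m * (f z * ⟪T, F z⟫_ℝ))) U ∧
    ∫ z in U, (fderiv ℝ F z).toLinearMap.normDet *
      (fderiv ℝ f z (ξ z) - m * (f z * ⟪T, F z⟫_ℝ)) = 0 := by
  classical
  have : FiniteDimensional ℝ E := Module.Basis.finiteDimensional_of_finite e.toBasis
  have hV : ContDiffOn ℝ 1 (fun z => f z • T) U := hf.smul contDiffOn_const
  have hsub : Function.support (fun z => f z • T) ⊆ Function.support f := by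
    intro z hz
    rw [Function.mem_support] at hz ⊢
    intro h0
    exact hz (by rw [h0, zero_smul])
  have hVs : tsupport (fun z => f z • T) ⊆ U := (closure_mono hsub).trans hfs
  have hVc : HasCompactSupport (fun z => f z • T) := hfc.mono hsub
  set D : EuclideanSpace ℝ (Fin m) → E →ₗ[ℝ] E := fun z =>
    if hz : z ∈ U then (((fderiv ℝ f z).toLinearMap ∘ₗ h.linv e hz).smulRight T) else 0 with hD
  have hDz : ∀ z (hz : z ∈ U) y, D z y = (fderiv ℝ f z (h.linv e hz y)) • T := by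
    intro z hz y
    simp [hD, hz]
  have main := h.div_integral e hV hVc hVs D S
    (by
      intro z hz η
      have hfd : DifferentiableAt ℝ f z :=
        (hf.contDiffAt (h.op.mem_nhds hz)).differentiableAt (by norm_num)
      rw [hDz z hz, h.linv_dF e hz, (hfd.hasFDerivAt.smul_const T).fderiv]
      simp)
    (by
      intro z hz
      rw [hDz z hz, h.linv_F e hz, map_zero, zero_smul])
    (by
      intro z hz
      rw [hDz z hz, h.linv_ν e hz, map_zero, zero_smul])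
    hS hS0 hS1 hmin
  have hEq : ∀ z ∈ U, (fderiv ℝ F z).toLinearMap.normDet *
      (LinearMap.trace ℝ E (D z) - m * ⟪f z • T, F z⟫_ℝ)
      = (fderiv ℝ F z).toLinearMap.normDet *
      (fderiv ℝ f z (ξ z) - m * (f z * ⟪T, F z⟫_ℝ)) := by
    intro z hz
    have h1 : LinearMap.trace ℝ E (D z) = fderiv ℝ f z (h.linv e hz T) := by
      simp only [hD, dif_pos hz]
      rw [LinearMap.trace_smulRight]
      rfl
    have h2 : h.linv e hz T = ξ z := by
      have h3 := h.linv_dF e hz (ξ z)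
      rw [hξ z hz, map_sub, map_sub, map_smul, map_smul, h.linv_F e hz, h.linv_ν e hz,
        smul_zero, smul_zero, sub_zero, sub_zero] at h3
      exact h3
    rw [h1, h2, inner_smul_left]
    rfl
  obtain ⟨m1, m2, m3⟩ := main
  constructor
  · refine m1.integrableOn.congr_fun ?_ h.op.measurableSet
    intro z hz
    exact (m2 z hz).trans (hEq z hz)
  · rw [← m3]
    exact setIntegral_congr_fun h.op.measurableSet fun z hz => (hEq z hz).symm

end Idx47
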