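import Mathlib

/-!
# MP_fbfa44_gt: the divergence theorem in a chart of a minimal hypersurface of the unit sphere

`IsPar.div_integral`: for a parametrisation `F` (on an open set `U` of `R^m`) of a minimal
hypersurface of the unit sphere with unit normal `ν`, and every compactly supported vector field
`V : U → E`, one has `∫_U J (div V - m ⟨V, F⟩) = 0`, `J = normDet (dF)` the area density.
No Christoffel symbols: with `δ = det` one has
`∑ᵢ ∂ᵢ δ(∂₁F, …, V at i, …, ∂ₘF, F, ν) = δ(∂F, F, ν) (tr D V - m⟨V,F⟩ - tr(dν)⟨V,ν⟩)`,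
because the second derivatives of `F` cancel in pairs.
-/

namespace Idx47

open Function

section Alg

variable {m : ℕ} {E : Type*} [AddCommGroup E] [Module ℝ E]

/-- columns of a moving frame: m tangent vectors, the position and the unit normal -/
def cols (a : Fin m → E) (x n : E) : Fin m ⊕ Fin 2 → E := Sum.elim a ![x, n]

/-- `∑ₖ δ(c with L cₖ at place k) = tr L · δ(c)` for a basis `c`. -/
theorem trace_det {ι : Type*} [Fintype ι] [DecidableEq ι] (c : Module.Basis ι ℝ E)
    (δ : E [⋀^ι]→ₗ[ℝ] ℝ) (L : E →ₗ[ℝ] E) :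
    ∑ k, δ (update c k (L (c k))) = LinearMap.trace ℝ E L * δ c := by
  have h1 : ∀ k, δ (update c k (L (c k))) = (LinearMap.toMatrix c c L) k k * δ c := by
    intro k
    have hk : L (c k) = ∑ j, (LinearMap.toMatrix c c L) j k • c j := by
      conv_lhs => rw [← c.sum_repr (L (c k))]
      refine Finset.sum_congr rfl fun j _ => ?_
      rw [LinearMap.toMatrix_apply]
    rw [hk, δ.map_update_sum]
    rw [Finset.sum_eq_single k]
    · rw [δ.map_update_smul, update_eq_self, smul_eq_mul]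
    · intro j _ hj
      rw [δ.map_update_smul]
      have : δ (update (c : ι → E) k (c j)) = 0 := by
        apply δ.map_eq_zero_of_eq (i := k) (j := j)
        · simp [update_of_ne hj]
        · exact hj.symm
      rw [this, smul_zero]
    · intro h; exact absurd (Finset.mem_univ k) h
  simp_rw [h1]
  rw [← Finset.sum_mul, LinearMap.trace_eq_matrix_trace ℝ c, Matrix.trace]
  rfl

variable (δ : E [⋀^(Fin m ⊕ Fin 2)]→ₗ[ℝ] ℝ)

theorem t2 (c : Fin m ⊕ Fin 2 → E) (V : E) (b : Fin m → Fin m → E)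
    (hb : ∀ i j, b i j = b j i) :
    ∑ i, ∑ j ∈ Finset.univ.erase i,
      δ (update (update c (Sum.inl i) V) (Sum.inl j) (b i j)) = 0 := by
  set f : Fin m → Fin m → ℝ := fun i j =>
    if j = i then 0 else δ (update (update c (Sum.inl i) V) (Sum.inl j) (b i j)) with hf
  have hanti : ∀ i j, f i j = - f j i := by
    intro i j
    by_cases h : j = i
    · subst h; simp [hf]
    · have h' : i ≠ j := fun e => h e.symm
      simp only [hf, h, h', if_false]
      have hne : (Sum.inl i : Fin m ⊕ Fin 2) ≠ Sum.inl j := by simpa using h'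
      have : update (update c (Sum.inl i) V) (Sum.inl j) (b i j)
          = (update (update c (Sum.inl j) V) (Sum.inl i) (b j i)) ∘
            Equiv.swap (Sum.inl i) (Sum.inl j) := by
        funext k
        by_cases hk1 : k = Sum.inl i
        · subst hk1
          rw [update_of_ne hne, update_self, comp_apply, Equiv.swap_apply_left,
            update_of_ne hne.symm, update_self]
        · by_cases hk2 : k = Sum.inl j
          · subst hk2
            rw [update_self, comp_apply, Equiv.swap_apply_right, update_self, hb i j]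
          · rw [update_of_ne hk2, update_of_ne hk1, comp_apply,
              Equiv.swap_apply_of_ne_of_ne hk1 hk2, update_of_ne hk1, update_of_ne hk2]
      rw [this, δ.map_swap _ hne]
  have hsum : ∑ i, ∑ j, f i j = 0 := by
    have h1 : ∑ i, ∑ j, f i j = ∑ i, ∑ j, f j i := Finset.sum_comm
    have h2 : ∑ i, ∑ j, f i j = - ∑ i, ∑ j, f j i := by
      rw [← Finset.sum_neg_distrib]
      refine Finset.sum_congr rfl fun i _ => ?_
      rw [← Finset.sum_neg_distrib]
      exact Finset.sum_congr rfl fun j _ => hanti i j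
    linarith
  rw [← hsum]
  refine Finset.sum_congr rfl fun i _ => ?_
  rw [← Finset.sum_erase_add _ _ (Finset.mem_univ i)]
  have : f i i = 0 := by simp [hf]
  rw [this, add_zero]
  refine Finset.sum_congr rfl fun j hj => ?_
  simp [hf, (Finset.mem_erase.1 hj).1]

/-- swapping: replacing `c_p` by `c_k` and `c_k` by `V` is minus replacing `c_p` by `V`. -/
theorem t3 {ι : Type*} [DecidableEq ι] (δ : E [⋀^ι]→ₗ[ℝ] ℝ) (c : ι → E) (V : E) (k p : ι)
    (hkp : k ≠ p) :
    δ (update (update c k V) p (c k)) = - δ (update c p V) := by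
  have : update (update c k V) p (c k) = (update c p V) ∘ Equiv.swap k p := by
    funext q
    by_cases hq1 : q = k
    · subst hq1
      simp [update_of_ne hkp]
    · by_cases hq2 : q = p
      · subst hq2
        simp [update_of_ne hkp]
      · rw [update_of_ne hq2, update_of_ne hq1, comp_apply,
          Equiv.swap_apply_of_ne_of_ne hq1 hq2, update_of_ne hq2]
  rw [this, δ.map_swap _ hkp]

theorem upd_lin {ι : Type*} [Fintype ι] [DecidableEq ι] (δ : E [⋀^ι]→ₗ[ℝ] ℝ) (c : ι → E)
    (w : ι → ℝ) (p : ι) :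
    δ (update c p (∑ q, w q • c q)) = w p * δ c := by
  rw [δ.map_update_sum, Finset.sum_eq_single p]
  · rw [δ.map_update_smul, update_eq_self, smul_eq_mul]
  · intro j _ hj
    rw [δ.map_update_smul]
    have : δ (update c p (c j)) = 0 := by
      apply δ.map_eq_zero_of_eq (i := p) (j := j)
      · simp [update_of_ne hj]
      · exact hj.symm
    rw [this, smul_zero]
  · intro h; exact absurd (Finset.mem_univ p) h

/-- the pointwise identity behind the divergence theorem -/
theorem key (c : Module.Basis (Fin m ⊕ Fin 2) ℝ E) (w : Fin m ⊕ Fin 2 → ℝ)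
    (b : Fin m → Fin m → E) (hb : ∀ i j, b i j = b j i)
    (L : E →ₗ[ℝ] E) (hL0 : L (c (Sum.inr 0)) = 0) (hL1 : L (c (Sum.inr 1)) = 0)
    (S : Fin m → Fin m → ℝ) :
    ∑ i, (δ (update c (Sum.inl i) (L (c (Sum.inl i))))
      + ∑ j ∈ Finset.univ.erase i,
        δ (update (update c (Sum.inl i) (∑ q, w q • c q)) (Sum.inl j) (b i j))
      + δ (update (update c (Sum.inl i) (∑ q, w q • c q)) (Sum.inr 0) (c (Sum.inl i)))
      + δ (update (update c (Sum.inl i) (∑ q, w q • c q)) (Sum.inr 1)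
          (∑ j, S i j • c (Sum.inl j))))
    = δ c * (LinearMap.trace ℝ E L - m * w (Sum.inr 0) - (∑ i, S i i) * w (Sum.inr 1)) := by
  rw [Finset.sum_add_distrib, Finset.sum_add_distrib, Finset.sum_add_distrib]
  have e1 : ∑ i, δ (update c (Sum.inl i) (L (c (Sum.inl i)))) = LinearMap.trace ℝ E L * δ c := by
    rw [← trace_det c δ L, Fintype.sum_sum_type]
    have : ∑ x : Fin 2, δ (update (c : Fin m ⊕ Fin 2 → E) (Sum.inr x) (L (c (Sum.inr x)))) = 0 := by
      rw [Fin.sum_univ_two, hL0, hL1]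
      have h0 : ∀ k : Fin m ⊕ Fin 2, δ (update (c : Fin m ⊕ Fin 2 → E) k 0) = 0 := by
        intro k
        exact δ.map_coord_zero k (by simp)
      rw [h0, h0, add_zero]
    rw [this, add_zero]
  have e2 := t2 δ (c : Fin m ⊕ Fin 2 → E) (∑ q, w q • c q) b hb
  have e3 : ∑ i : Fin m, δ (update (update c (Sum.inl i) (∑ q, w q • c q)) (Sum.inr 0)
      (c (Sum.inl i))) = - (m * (w (Sum.inr 0) * δ c)) := by
    have : ∀ i : Fin m, δ (update (update c (Sum.inl i) (∑ q, w q • c q)) (Sum.inr 0)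
        (c (Sum.inl i))) = - (w (Sum.inr 0) * δ c) := by
      intro i
      rw [t3 δ (c : Fin m ⊕ Fin 2 → E) (∑ q, w q • c q) (Sum.inl i) (Sum.inr 0) (by simp), upd_lin]
    simp_rw [this]
    simp
  have e4 : ∑ i : Fin m, δ (update (update c (Sum.inl i) (∑ q, w q • c q)) (Sum.inr 1)
      (∑ j, S i j • c (Sum.inl j))) = - ((∑ i, S i i) * (w (Sum.inr 1) * δ c)) := by
    have : ∀ i : Fin m, δ (update (update c (Sum.inl i) (∑ q, w q • c q)) (Sum.inr 1)
        (∑ j, S i j • c (Sum.inl j))) = - (S i i * (w (Sum.inr 1) * δ c)) := by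
      intro i
      rw [δ.map_update_sum, Finset.sum_eq_single i]
      · rw [δ.map_update_smul, t3 δ (c : Fin m ⊕ Fin 2 → E) (∑ q, w q • c q) (Sum.inl i)
          (Sum.inr 1) (by simp), upd_lin]
        simp
      · intro j _ hj
        rw [δ.map_update_smul]
        have : δ (update (update c (Sum.inl i) (∑ q, w q • c q)) (Sum.inr 1)
            (c (Sum.inl j))) = 0 := by
          apply δ.map_eq_zero_of_eq (i := Sum.inl j) (j := Sum.inr 1)
          · rw [update_self, update_of_ne (by simp), update_of_ne (by simpa using hj)]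
          · simp
        rw [this, smul_zero]
      · intro h; exact absurd (Finset.mem_univ i) h
    simp_rw [this]
    rw [Finset.sum_neg_distrib, Finset.sum_mul]
  rw [e1, e2, e3, e4]
  ring

end Alg



section Chart

open MeasureTheory Module

open scoped InnerProductSpace Topology

variable {m : ℕ} {E : Type*} [NormedAddCommGroup E] [InnerProductSpace ℝ E]

/-- the moving frame `(∂₁F, …, ∂ₘF, F, ν)` -/
noncomputable def frame (F ν : EuclideanSpace ℝ (Fin m) → E) (z : EuclideanSpace ℝ (Fin m)) :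
    Fin m ⊕ Fin 2 → E :=
  cols (fun i => fderiv ℝ F z (EuclideanSpace.single i (1 : ℝ))) (F z) (ν z)

/-- the determinant in an orthonormal basis as a continuous alternating map -/
noncomputable def detC {ι : Type*} [Fintype ι] [DecidableEq ι] (e : OrthonormalBasis ι ℝ E) :
    E [⋀^ι]→L[ℝ] ℝ :=
  { e.toBasis.det with
    cont := by
      have h : (fun v : ι → E => e.toBasis.det v)
          = fun v : ι → E => Matrix.det (Matrix.of fun i j => e.repr (v j) i) := by
        funext v
        rw [Basis.det_apply]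
        congr 1
      change Continuous (fun v : ι → E => e.toBasis.det v)
      rw [h]
      apply Continuous.matrix_det
      refine continuous_matrix fun i j => ?_
      simp only [Matrix.of_apply]
      fun_prop }

theorem detC_apply {ι : Type*} [Fintype ι] [DecidableEq ι] (e : OrthonormalBasis ι ℝ E)
    (v : ι → E) : detC e v = e.toBasis.det v := rfl

theorem detC_sq {ι : Type*} [Fintype ι] [DecidableEq ι] (e : OrthonormalBasis ι ℝ E)
    (v : ι → E) : (detC e v) ^ 2 = (Matrix.gram ℝ v).det := by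
  have h : Matrix.gram ℝ v = (e.toBasis.toMatrix v).transpose * (e.toBasis.toMatrix v) := by
    ext i j
    rw [Matrix.gram_apply, Matrix.mul_apply]
    rw [← e.sum_inner_mul_inner (v i) (v j)]
    refine Finset.sum_congr rfl fun k _ => ?_
    rw [Matrix.transpose_apply, Basis.toMatrix_apply, Basis.toMatrix_apply]
    simp only [OrthonormalBasis.coe_toBasis_repr_apply, OrthonormalBasis.repr_apply_apply]
    rw [real_inner_comm]
  rw [h, Matrix.det_mul, Matrix.det_transpose, detC_apply, Basis.det_apply, sq]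

section Frame

variable {a : Fin m → E} {x n : E}

theorem cols_li (ha : LinearIndependent ℝ a) (hx : ‖x‖ = 1) (hn : ‖n‖ = 1)
    (hxn : ⟪x, n⟫_ℝ = 0) (hax : ∀ i, ⟪a i, x⟫_ℝ = 0) (han : ∀ i, ⟪a i, n⟫_ℝ = 0) :
    LinearIndependent ℝ (cols a x n) := by
  rw [Fintype.linearIndependent_iff]
  intro g hg
  rw [Fintype.sum_sum_type, Fin.sum_univ_two] at hg
  simp only [cols, Sum.elim_inl, Sum.elim_inr, Matrix.cons_val_zero, Matrix.cons_val_one] at hg
  have h0 : g (Sum.inr 0) = 0 := by
    have := congrArg (fun y => ⟪y, x⟫_ℝ) hg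
    simp only [inner_add_left, sum_inner, inner_smul_left, inner_zero_left, hax,
      real_inner_self_eq_norm_sq, hx, real_inner_comm] at this
    simpa [hxn, real_inner_comm] using this
  have h1 : g (Sum.inr 1) = 0 := by
    have := congrArg (fun y => ⟪y, n⟫_ℝ) hg
    simp only [inner_add_left, sum_inner, inner_smul_left, inner_zero_left, han,
      real_inner_self_eq_norm_sq, hn] at this
    simpa [hxn, real_inner_comm] using this
  rw [h0, h1] at hg
  simp only [zero_smul, add_zero] at hg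
  have h2 := (Fintype.linearIndependent_iff.1 ha) (fun i => g (Sum.inl i)) hg
  rintro (i | i)
  · exact h2 i
  · fin_cases i
    · exact h0
    · exact h1

theorem gram_cols_det (hx : ‖x‖ = 1) (hn : ‖n‖ = 1)
    (hxn : ⟪x, n⟫_ℝ = 0) (hax : ∀ i, ⟪a i, x⟫_ℝ = 0) (han : ∀ i, ⟪a i, n⟫_ℝ = 0) :
    (Matrix.gram ℝ (cols a x n)).det = (Matrix.gram ℝ a).det := by
  have h : Matrix.gram ℝ (cols a x n) = Matrix.fromBlocks (Matrix.gram ℝ a) 0 0 1 := by
    ext i j
    rcases i with i | i <;> rcases j with j | j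
    · simp [cols, Matrix.gram_apply]
    · fin_cases j <;> simp [cols, Matrix.gram_apply, hax, han]
    · have h1 : ⟪x, a j⟫_ℝ = 0 := by rw [real_inner_comm]; exact hax j
      have h2 : ⟪n, a j⟫_ℝ = 0 := by rw [real_inner_comm]; exact han j
      fin_cases i <;> simp [cols, Matrix.gram_apply, h1, h2]
    · have h1 : ⟪n, x⟫_ℝ = 0 := by rw [real_inner_comm]; exact hxn
      fin_cases i <;> fin_cases j <;>
        simp [cols, Matrix.gram_apply, hxn, hx, hn, h1]
  rw [h, Matrix.det_fromBlocks_zero₂₁, Matrix.det_one, mul_one]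

end Frame

/-! ### Calculus in a chart -/

/-- the standing assumptions on a parametrisation `F` of a hypersurface of the sphere with unit
normal `ν` (as maps on the open parameter set `U`) -/
structure IsPar (U : Set (EuclideanSpace ℝ (Fin m))) (F ν : EuclideanSpace ℝ (Fin m) → E) :
    Prop where
  op : IsOpen U
  smF : ContDiffOn ℝ 2 F U
  smν : ContDiffOn ℝ 1 ν U
  nF : ∀ z ∈ U, ‖F z‖ = 1
  nν : ∀ z ∈ U, ‖ν z‖ = 1
  Fν : ∀ z ∈ U, ⟪F z, ν z⟫_ℝ = 0
  dFν : ∀ z ∈ U, ∀ ξ, ⟪fderiv ℝ F z ξ, ν z⟫_ℝ = 0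
  imm : ∀ z ∈ U, Function.Injective (fderiv ℝ F z)

variable {U : Set (EuclideanSpace ℝ (Fin m))} {F ν : EuclideanSpace ℝ (Fin m) → E}

theorem IsPar.diffF (h : IsPar U F ν) {z} (hz : z ∈ U) : DifferentiableAt ℝ F z :=
  (h.smF.contDiffAt (h.op.mem_nhds hz)).differentiableAt (by norm_num)

theorem IsPar.diffν (h : IsPar U F ν) {z} (hz : z ∈ U) : DifferentiableAt ℝ ν z :=
  (h.smν.contDiffAt (h.op.mem_nhds hz)).differentiableAt (by norm_num)

theorem IsPar.dFF (h : IsPar U F ν) {z} (hz : z ∈ U) (ξ : EuclideanSpace ℝ (Fin m)) :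
    ⟪fderiv ℝ F z ξ, F z⟫_ℝ = 0 := by
  have hd := (h.diffF hz).hasFDerivAt
  have h1 : HasFDerivAt (fun y => ⟪F y, F y⟫_ℝ) _ z := hd.inner ℝ hd
  have h2 : HasFDerivAt (fun y => ⟪F y, F y⟫_ℝ)
      (0 : EuclideanSpace ℝ (Fin m) →L[ℝ] ℝ) z := by
    refine (hasFDerivAt_const (1 : ℝ) z).congr_of_eventuallyEq ?_
    filter_upwards [h.op.mem_nhds hz] with y hy
    rw [real_inner_self_eq_norm_sq, h.nF y hy]; norm_num
  have h3 := h1.unique h2
  have h4 := congrArg (fun T => T ξ) h3
  simp [fderivInnerCLM_apply] at h4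
  rw [real_inner_comm (fderiv ℝ F z ξ) (F z)] at h4
  linarith

theorem IsPar.dνν (h : IsPar U F ν) {z} (hz : z ∈ U) (ξ : EuclideanSpace ℝ (Fin m)) :
    ⟪fderiv ℝ ν z ξ, ν z⟫_ℝ = 0 := by
  have hd := (h.diffν hz).hasFDerivAt
  have h1 : HasFDerivAt (fun y => ⟪ν y, ν y⟫_ℝ) _ z := hd.inner ℝ hd
  have h2 : HasFDerivAt (fun y => ⟪ν y, ν y⟫_ℝ)
      (0 : EuclideanSpace ℝ (Fin m) →L[ℝ] ℝ) z := by
    refine (hasFDerivAt_const (1 : ℝ) z).congr_of_eventuallyEq ?_
    filter_upwards [h.op.mem_nhds hz] with y hy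
    rw [real_inner_self_eq_norm_sq, h.nν y hy]; norm_num
  have h3 := h1.unique h2
  have h4 := congrArg (fun T => T ξ) h3
  simp [fderivInnerCLM_apply] at h4
  rw [real_inner_comm (fderiv ℝ ν z ξ) (ν z)] at h4
  linarith

theorem IsPar.dνF (h : IsPar U F ν) {z} (hz : z ∈ U) (ξ : EuclideanSpace ℝ (Fin m)) :
    ⟪fderiv ℝ ν z ξ, F z⟫_ℝ = 0 := by
  have hd := (h.diffν hz).hasFDerivAt
  have hd' := (h.diffF hz).hasFDerivAt
  have h1 : HasFDerivAt (fun y => ⟪F y, ν y⟫_ℝ) _ z := hd'.inner ℝ hd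
  have h2 : HasFDerivAt (fun y => ⟪F y, ν y⟫_ℝ)
      (0 : EuclideanSpace ℝ (Fin m) →L[ℝ] ℝ) z := by
    refine (hasFDerivAt_const (0 : ℝ) z).congr_of_eventuallyEq ?_
    filter_upwards [h.op.mem_nhds hz] with y hy
    exact h.Fν y hy
  have h3 := h1.unique h2
  have h4 := congrArg (fun T => T ξ) h3
  simp [fderivInnerCLM_apply, h.dFν z hz ξ] at h4
  rw [real_inner_comm]
  exact h4

theorem IsPar.li (h : IsPar U F ν) {z} (hz : z ∈ U) :
    LinearIndependent ℝ (frame F ν z) := by
  refine cols_li ?_ (h.nF z hz) (h.nν z hz) (h.Fν z hz) (fun i => h.dFF hz _)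
    (fun i => h.dFν z hz _)
  have h1 : LinearIndependent ℝ
      (fun i : Fin m => (EuclideanSpace.single i (1 : ℝ) : EuclideanSpace ℝ (Fin m))) := by
    have h2 := (EuclideanSpace.basisFun (Fin m) ℝ).toBasis.linearIndependent
    have h3 : ⇑(EuclideanSpace.basisFun (Fin m) ℝ).toBasis
        = fun i : Fin m => (EuclideanSpace.single i (1 : ℝ) : EuclideanSpace ℝ (Fin m)) := by
      funext i; simp
    rwa [h3] at h2
  exact h1.map' (fderiv ℝ F z).toLinearMap (LinearMap.ker_eq_bot.2 (h.imm z hz))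

/-- the moving frame as a basis -/
noncomputable def IsPar.basis (h : IsPar U F ν) (e : OrthonormalBasis (Fin m ⊕ Fin 2) ℝ E)
    {z} (hz : z ∈ U) : Basis (Fin m ⊕ Fin 2) ℝ E :=
  haveI : FiniteDimensional ℝ E := Module.Basis.finiteDimensional_of_finite e.toBasis
  basisOfLinearIndependentOfCardEqFinrank (h.li hz) (Module.finrank_eq_card_basis e.toBasis).symm

theorem IsPar.coe_basis (h : IsPar U F ν) (e : OrthonormalBasis (Fin m ⊕ Fin 2) ℝ E)
    {z} (hz : z ∈ U) : (h.basis e hz : Fin m ⊕ Fin 2 → E) = frame F ν z := by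
  have : FiniteDimensional ℝ E := Module.Basis.finiteDimensional_of_finite e.toBasis
  exact coe_basisOfLinearIndependentOfCardEqFinrank _ _

theorem IsPar.det_ne (h : IsPar U F ν) (e : OrthonormalBasis (Fin m ⊕ Fin 2) ℝ E)
    {z} (hz : z ∈ U) : detC e (frame F ν z) ≠ 0 := by
  rw [detC_apply, ← h.coe_basis e hz]
  exact (e.toBasis.isUnit_det (h.basis e hz)).ne_zero

theorem IsPar.abs_det (h : IsPar U F ν) (e : OrthonormalBasis (Fin m ⊕ Fin 2) ℝ E)
    {z} (hz : z ∈ U) : |detC e (frame F ν z)| = (fderiv ℝ F z).toLinearMap.normDet := by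
  have : FiniteDimensional ℝ E := Module.Basis.finiteDimensional_of_finite e.toBasis
  have h1 : (detC e (frame F ν z)) ^ 2 = ((fderiv ℝ F z).toLinearMap.normDet) ^ 2 := by
    rw [detC_sq, frame, gram_cols_det (h.nF z hz) (h.nν z hz) (h.Fν z hz) (fun i => h.dFF hz _)
      (fun i => h.dFν z hz _)]
    have := LinearMap.normDet_sq_eq_det_gram (𝕜 := ℝ) (fderiv ℝ F z).toLinearMap
      (EuclideanSpace.basisFun (Fin m) ℝ)
    simp only [EuclideanSpace.basisFun_apply] at this
    exact this.symm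
  rw [← abs_of_nonneg (LinearMap.normDet_nonneg (fderiv ℝ F z).toLinearMap)]
  exact (sq_eq_sq_iff_abs_eq_abs _ _).1 h1

theorem IsPar.frame_inl (z : EuclideanSpace ℝ (Fin m)) (i : Fin m) :
    frame F ν z (Sum.inl i) = fderiv ℝ F z (EuclideanSpace.single i (1 : ℝ)) := rfl

theorem IsPar.frame_inr0 (z : EuclideanSpace ℝ (Fin m)) : frame F ν z (Sum.inr 0) = F z := rfl

theorem IsPar.frame_inr1 (z : EuclideanSpace ℝ (Fin m)) : frame F ν z (Sum.inr 1) = ν z := rfl

theorem IsPar.repr0 (h : IsPar U F ν) (e : OrthonormalBasis (Fin m ⊕ Fin 2) ℝ E)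
    {z} (hz : z ∈ U) (y : E) : (h.basis e hz).repr y (Sum.inr 0) = ⟪y, F z⟫_ℝ := by
  have h1 := (h.basis e hz).sum_repr y
  rw [Fintype.sum_sum_type, Fin.sum_univ_two, h.coe_basis e hz] at h1
  conv_rhs => rw [← h1]
  simp only [inner_add_left, sum_inner, inner_smul_left, IsPar.frame_inl, IsPar.frame_inr0,
    IsPar.frame_inr1, h.dFF hz, real_inner_self_eq_norm_sq, h.nF z hz]
  rw [real_inner_comm (F z) (ν z), h.Fν z hz]
  simp

theorem IsPar.repr1 (h : IsPar U F ν) (e : OrthonormalBasis (Fin m ⊕ Fin 2) ℝ E)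
    {z} (hz : z ∈ U) (y : E) : (h.basis e hz).repr y (Sum.inr 1) = ⟪y, ν z⟫_ℝ := by
  have h1 := (h.basis e hz).sum_repr y
  rw [Fintype.sum_sum_type, Fin.sum_univ_two, h.coe_basis e hz] at h1
  conv_rhs => rw [← h1]
  simp only [inner_add_left, sum_inner, inner_smul_left, IsPar.frame_inl, IsPar.frame_inr0,
    IsPar.frame_inr1, h.dFν z hz, real_inner_self_eq_norm_sq, h.nν z hz, h.Fν z hz]
  simp

theorem IsPar.smCols (h : IsPar U F ν) {V : EuclideanSpace ℝ (Fin m) → E} {z} (hz : z ∈ U)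
    (hV : ContDiffAt ℝ 1 V z) (i : Fin m) (k : Fin m ⊕ Fin 2) :
    ContDiffAt ℝ 1 (fun y => update (frame F ν y) (Sum.inl i) (V y) k) z := by
  rcases k with j | j
  · by_cases hj : j = i
    · subst hj
      simpa using hV
    · have h1 : ∀ y, update (frame F ν y) (Sum.inl i) (V y) (Sum.inl j)
          = fderiv ℝ F y (EuclideanSpace.single j (1 : ℝ)) := by
        intro y
        rw [update_of_ne (by simpa using hj), IsPar.frame_inl]
      simp_rw [h1]
      exact ((h.smF.contDiffAt (h.op.mem_nhds hz)).fderiv_right (m := 1) (by norm_num)).clm_apply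
        contDiffAt_const
  · have h1 : ∀ y, update (frame F ν y) (Sum.inl i) (V y) (Sum.inr j) = ![F y, ν y] j := by
      intro y
      rw [update_of_ne (by simp)]
      rfl
    simp_rw [h1]
    fin_cases j
    · exact (h.smF.contDiffAt (h.op.mem_nhds hz)).of_le (by norm_num)
    · exact h.smν.contDiffAt (h.op.mem_nhds hz)

theorem IsPar.smFrame (h : IsPar U F ν) {z} (hz : z ∈ U) : ContDiffAt ℝ 1 (frame F ν) z := by
  rw [contDiffAt_pi]
  rintro (j | j)
  · exact ((h.smF.contDiffAt (h.op.mem_nhds hz)).fderiv_right (m := 1) (by norm_num)).clm_apply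
      contDiffAt_const
  · fin_cases j
    · exact (h.smF.contDiffAt (h.op.mem_nhds hz)).of_le (by norm_num)
    · exact h.smν.contDiffAt (h.op.mem_nhds hz)

/-- the pointwise identity behind the divergence theorem -/
theorem IsPar.div_pointwise (h : IsPar U F ν) (e : OrthonormalBasis (Fin m ⊕ Fin 2) ℝ E)
    {V : EuclideanSpace ℝ (Fin m) → E} {z} (hz : z ∈ U) (hV : ContDiffAt ℝ 1 V z)
    (D S : E →ₗ[ℝ] E) (hD : ∀ ξ, D (fderiv ℝ F z ξ) = fderiv ℝ V z ξ) (hD0 : D (F z) = 0)
    (hD1 : D (ν z) = 0) (hS : ∀ ξ, S (fderiv ℝ F z ξ) = fderiv ℝ ν z ξ) (hS0 : S (F z) = 0)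
    (hS1 : S (ν z) = 0) :
    ∑ i : Fin m, fderiv ℝ (fun y => detC e (update (frame F ν y) (Sum.inl i) (V y))) z
        (EuclideanSpace.single i (1 : ℝ))
      = detC e (frame F ν z) * (LinearMap.trace ℝ E D - m * ⟪V z, F z⟫_ℝ
          - LinearMap.trace ℝ E S * ⟪V z, ν z⟫_ℝ) := by
  have hVd : DifferentiableAt ℝ V z := hV.differentiableAt (by norm_num)
  set c := h.basis e hz with hc
  have hcc : (c : Fin m ⊕ Fin 2 → E) = frame F ν z := h.coe_basis e hz
  set w : Fin m ⊕ Fin 2 → ℝ := fun q => c.repr (V z) q with hw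
  have hVz : V z = ∑ q, w q • c q := (c.sum_repr (V z)).symm
  set b : Fin m → Fin m → E := fun i j => fderiv ℝ (fderiv ℝ F) z
    (EuclideanSpace.single i (1 : ℝ)) (EuclideanSpace.single j (1 : ℝ)) with hb
  have hF2 : ContDiffAt ℝ 2 F z := h.smF.contDiffAt (h.op.mem_nhds hz)
  have hbs : ∀ i j, b i j = b j i := by
    intro i j
    have := hF2.isSymmSndFDerivAt (by simp)
    exact this _ _
  set Sm : Fin m → Fin m → ℝ := fun i j =>
    c.repr (fderiv ℝ ν z (EuclideanSpace.single i (1 : ℝ))) (Sum.inl j) with hSm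
  have hν : ∀ i, fderiv ℝ ν z (EuclideanSpace.single i (1 : ℝ)) = ∑ j, Sm i j • c (Sum.inl j) := by
    intro i
    have h1 := c.sum_repr (fderiv ℝ ν z (EuclideanSpace.single i (1 : ℝ)))
    rw [Fintype.sum_sum_type, Fin.sum_univ_two, h.repr0 e hz, h.repr1 e hz, h.dνF hz, h.dνν hz,
      zero_smul, zero_smul, add_zero, add_zero] at h1
    exact h1.symm
  have hDc : ∀ i, D (c (Sum.inl i)) = fderiv ℝ V z (EuclideanSpace.single i (1 : ℝ)) := by
    intro i
    rw [hcc, IsPar.frame_inl, hD]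
  have hc0 : c (Sum.inr 0) = F z := by rw [hcc, IsPar.frame_inr0]
  have hc1 : c (Sum.inr 1) = ν z := by rw [hcc, IsPar.frame_inr1]
  have htr : LinearMap.trace ℝ E S = ∑ i, Sm i i := by
    rw [LinearMap.trace_eq_matrix_trace ℝ c, Matrix.trace, Fintype.sum_sum_type, Fin.sum_univ_two]
    simp only [Matrix.diag_apply, LinearMap.toMatrix_apply, hc0, hc1, hS0, hS1, map_zero,
      Finsupp.coe_zero, Pi.zero_apply, add_zero]
    refine Finset.sum_congr rfl fun i _ => ?_
    rw [hcc, IsPar.frame_inl, hS]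
  have hw0 : w (Sum.inr 0) = ⟪V z, F z⟫_ℝ := h.repr0 e hz (V z)
  have hw1 : w (Sum.inr 1) = ⟪V z, ν z⟫_ℝ := h.repr1 e hz (V z)
  have hkey := key (e.toBasis.det) c w b hbs D (by rw [hc0, hD0]) (by rw [hc1, hD1]) Sm
  rw [← htr, hw0, hw1] at hkey
  have hrhs : e.toBasis.det (c : Fin m ⊕ Fin 2 → E) = detC e (frame F ν z) := by
    rw [detC_apply, hcc]
  rw [hrhs] at hkey
  rw [← hkey]
  refine Finset.sum_congr rfl fun i _ => ?_
  set ei : EuclideanSpace ℝ (Fin m) := EuclideanSpace.single i (1 : ℝ) with hei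
  have hdiff : ∀ k, DifferentiableAt ℝ (fun y => update (frame F ν y) (Sum.inl i) (V y) k) z :=
    fun k => (h.smCols hz hV i k).differentiableAt (by norm_num)
  have hder := fderiv_continuousAlternatingMap_apply_apply
    (f := fun _ : EuclideanSpace ℝ (Fin m) => detC e)
    (g := fun k y => update (frame F ν y) (Sum.inl i) (V y) k) (x := z)
    (differentiableAt_const _) hdiff ei
  have hder' : fderiv ℝ (fun y => detC e (update (frame F ν y) (Sum.inl i) (V y))) z ei
      = ∑ k, detC e (update (update (frame F ν z) (Sum.inl i) (V z)) k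
          (fderiv ℝ (fun y => update (frame F ν y) (Sum.inl i) (V y) k) z ei)) := by
    have h0 : fderiv ℝ (fun _ : EuclideanSpace ℝ (Fin m) => detC e) z = 0 := by simp
    rw [h0] at hder
    simpa using hder
  rw [hder', Fintype.sum_sum_type, Fin.sum_univ_two, ← Finset.add_sum_erase _ _ (Finset.mem_univ i)]
  simp only [detC_apply]
  have c1 : fderiv ℝ (fun y => update (frame F ν y) (Sum.inl i) (V y) (Sum.inl i)) z ei
      = D (c (Sum.inl i)) := by
    rw [hDc i]
    have : (fun y => update (frame F ν y) (Sum.inl i) (V y) (Sum.inl i)) = V := by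
      funext y; simp
    rw [this]
  have c2 : ∀ j ∈ Finset.univ.erase i,
      fderiv ℝ (fun y => update (frame F ν y) (Sum.inl i) (V y) (Sum.inl j)) z ei = b i j := by
    intro j hj
    have hji : j ≠ i := (Finset.mem_erase.1 hj).1
    have : (fun y => update (frame F ν y) (Sum.inl i) (V y) (Sum.inl j))
        = fun y => fderiv ℝ F y (EuclideanSpace.single j (1 : ℝ)) := by
      funext y
      rw [update_of_ne (by simpa using hji), IsPar.frame_inl]
    rw [this, fderiv_clm_apply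
      ((hF2.fderiv_right (m := 1) (by norm_num)).differentiableAt (by norm_num))
      (differentiableAt_const _)]
    simp [hb, hei]
  have c3 : fderiv ℝ (fun y => update (frame F ν y) (Sum.inl i) (V y) (Sum.inr 0)) z ei
      = c (Sum.inl i) := by
    have : (fun y => update (frame F ν y) (Sum.inl i) (V y) (Sum.inr 0)) = F := by
      funext y
      rw [update_of_ne (by simp), IsPar.frame_inr0]
    rw [this, hcc, IsPar.frame_inl]
  have c4 : fderiv ℝ (fun y => update (frame F ν y) (Sum.inl i) (V y) (Sum.inr 1)) z ei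
      = ∑ j, Sm i j • c (Sum.inl j) := by
    have : (fun y => update (frame F ν y) (Sum.inl i) (V y) (Sum.inr 1)) = ν := by
      funext y
      rw [update_of_ne (by simp), IsPar.frame_inr1]
    rw [this, ← hν i]
  rw [c1, c3, c4, update_idem, ← hcc, ← hVz]
  have c5 : ∑ j ∈ Finset.univ.erase i,
      e.toBasis.det (update (update (c : Fin m ⊕ Fin 2 → E) (Sum.inl i) (V z)) (Sum.inl j)
        (fderiv ℝ (fun y => update (frame F ν y) (Sum.inl i) (V y) (Sum.inl j)) z ei))
      = ∑ j ∈ Finset.univ.erase i,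
      e.toBasis.det (update (update (c : Fin m ⊕ Fin 2 → E) (Sum.inl i) (V z)) (Sum.inl j)
        (b i j)) := Finset.sum_congr rfl fun j hj => by rw [c2 j hj]
  rw [c5]
  ring

/-- the (locally constant) sign of the frame determinant -/
noncomputable def sgn (e : OrthonormalBasis (Fin m ⊕ Fin 2) ℝ E)
    (F ν : EuclideanSpace ℝ (Fin m) → E) (y : EuclideanSpace ℝ (Fin m)) : ℝ :=
  if 0 < detC e (frame F ν y) then 1 else -1

theorem IsPar.sgn_eventually (h : IsPar U F ν) (e : OrthonormalBasis (Fin m ⊕ Fin 2) ℝ E)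
    {z} (hz : z ∈ U) : ∀ᶠ y in 𝓝 z, sgn e F ν y = sgn e F ν z := by
  have hcont : ContinuousAt (fun y => detC e (frame F ν y)) z :=
    (detC e).cont.continuousAt.comp (h.smFrame hz).continuousAt
  rcases lt_or_gt_of_ne (h.det_ne e hz) with hneg | hpos
  · have := hcont.eventually_lt continuousAt_const hneg
    filter_upwards [this] with y hy
    unfold sgn
    rw [if_neg (not_lt.2 hy.le), if_neg (not_lt.2 hneg.le)]
  · have := continuousAt_const.eventually_lt hcont hpos
    filter_upwards [this] with y hy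
    unfold sgn
    rw [if_pos hy, if_pos hpos]

theorem sgn_mul (e : OrthonormalBasis (Fin m ⊕ Fin 2) ℝ E)
    (F ν : EuclideanSpace ℝ (Fin m) → E) (y : EuclideanSpace ℝ (Fin m)) :
    sgn e F ν y * detC e (frame F ν y) = |detC e (frame F ν y)| := by
  unfold sgn
  split_ifs with h
  · rw [abs_of_pos h, one_mul]
  · rw [abs_of_nonpos (not_lt.1 h)]; ring

/-- the components of the vector density whose divergence is integrated -/
noncomputable def dens (e : OrthonormalBasis (Fin m ⊕ Fin 2) ℝ E)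
    (F ν V : EuclideanSpace ℝ (Fin m) → E) (i : Fin m) (y : EuclideanSpace ℝ (Fin m)) : ℝ :=
  sgn e F ν y * detC e (update (frame F ν y) (Sum.inl i) (V y))

theorem dens_zero (e : OrthonormalBasis (Fin m ⊕ Fin 2) ℝ E)
    (F ν V : EuclideanSpace ℝ (Fin m) → E) (i : Fin m) (y : EuclideanSpace ℝ (Fin m))
    (hy : V y = 0) : dens e F ν V i y = 0 := by
  unfold dens
  rw [hy]
  have : detC e (update (frame F ν y) (Sum.inl i) 0) = 0 :=
    (e.toBasis.det).map_coord_zero (Sum.inl i) (by simp)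
  rw [this, mul_zero]

theorem IsPar.dens_smooth (h : IsPar U F ν) (e : OrthonormalBasis (Fin m ⊕ Fin 2) ℝ E)
    {V : EuclideanSpace ℝ (Fin m) → E} (hV : ContDiffOn ℝ 1 V U) (hVs : tsupport V ⊆ U)
    (i : Fin m) : ContDiff ℝ 1 (dens e F ν V i) := by
  rw [contDiff_iff_contDiffAt]
  intro z
  by_cases hz : z ∈ U
  · have h1 : ContDiffAt ℝ 1
        (fun y => sgn e F ν z * detC e (update (frame F ν y) (Sum.inl i) (V y))) z := by
      refine contDiffAt_const.mul ?_
      have h2 : ContDiffAt ℝ 1 (fun y => update (frame F ν y) (Sum.inl i) (V y)) z :=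
        contDiffAt_pi.2 fun k => h.smCols hz (hV.contDiffAt (h.op.mem_nhds hz)) i k
      exact (ContinuousMultilinearMap.contDiff (detC e).toContinuousMultilinearMap).contDiffAt.comp
        z h2
    refine h1.congr_of_eventuallyEq ?_
    filter_upwards [h.sgn_eventually e hz] with y hy
    unfold dens
    rw [hy]
  · have h3 : ∀ᶠ y in 𝓝 z, V y = 0 := by
      have : z ∉ tsupport V := fun hh => hz (hVs hh)
      exact notMem_tsupport_iff_eventuallyEq.1 this
    refine (contDiffAt_const (c := (0 : ℝ))).congr_of_eventuallyEq ?_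
    filter_upwards [h3] with y hy
    exact dens_zero e F ν V i y hy

theorem dens_compact (e : OrthonormalBasis (Fin m ⊕ Fin 2) ℝ E)
    {V : EuclideanSpace ℝ (Fin m) → E} (hVc : HasCompactSupport V) (i : Fin m) :
    HasCompactSupport (dens e F ν V i) := by
  refine hVc.mono ?_
  intro y hy
  rw [Function.mem_support] at hy ⊢
  exact fun h0 => hy (dens_zero e F ν V i y h0)

theorem integral_fderiv_zero {g : EuclideanSpace ℝ (Fin m) → ℝ} (hg : ContDiff ℝ 1 g)
    (hgc : HasCompactSupport g) (v : EuclideanSpace ℝ (Fin m)) :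
    Integrable (fun z => fderiv ℝ g z v) ∧ ∫ z, fderiv ℝ g z v = 0 := by
  have hc : Continuous (fun z => fderiv ℝ g z v) :=
    (hg.continuous_fderiv (by norm_num)).clm_apply continuous_const
  have hcs : HasCompactSupport (fun z => fderiv ℝ g z v) := by
    have := hgc.fderiv (𝕜 := ℝ)
    exact this.comp_left (g := fun T : EuclideanSpace ℝ (Fin m) →L[ℝ] ℝ => T v) (by simp)
  have hi : Integrable (fun z => fderiv ℝ g z v) := hc.integrable_of_hasCompactSupport hcs
  refine ⟨hi, ?_⟩
  have := integral_mul_fderiv_eq_neg_fderiv_mul_of_integrable (μ := volume)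
    (f := fun _ : EuclideanSpace ℝ (Fin m) => (1 : ℝ)) (g := g) (v := v) (by simp)
    (by simpa using hi) (by simpa using hg.continuous.integrable_of_hasCompactSupport hgc)
    (fun x _ => differentiableAt_const _) (fun x _ => (hg.differentiable (by norm_num)) x)
  simpa using this

/-- **Divergence theorem in a chart** of a hypersurface of the unit sphere, general form. -/
theorem IsPar.div_integral_gen (h : IsPar U F ν) (e : OrthonormalBasis (Fin m ⊕ Fin 2) ℝ E)
    {V : EuclideanSpace ℝ (Fin m) → E} (hV : ContDiffOn ℝ 1 V U) (hVc : HasCompactSupport V)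
    (hVs : tsupport V ⊆ U) (D S : EuclideanSpace ℝ (Fin m) → E →ₗ[ℝ] E)
    (hD : ∀ z ∈ U, ∀ ξ, D z (fderiv ℝ F z ξ) = fderiv ℝ V z ξ)
    (hD0 : ∀ z ∈ U, D z (F z) = 0) (hD1 : ∀ z ∈ U, D z (ν z) = 0)
    (hS : ∀ z ∈ U, ∀ ξ, S z (fderiv ℝ F z ξ) = fderiv ℝ ν z ξ)
    (hS0 : ∀ z ∈ U, S z (F z) = 0) (hS1 : ∀ z ∈ U, S z (ν z) = 0) :
    Integrable (fun z => ∑ i : Fin m,
        fderiv ℝ (dens e F ν V i) z (EuclideanSpace.single i (1 : ℝ))) ∧
    (∀ z ∈ U, ∑ i : Fin m, fderiv ℝ (dens e F ν V i) z (EuclideanSpace.single i (1 : ℝ))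
      = (fderiv ℝ F z).toLinearMap.normDet *
        (LinearMap.trace ℝ E (D z) - m * ⟪V z, F z⟫_ℝ
          - LinearMap.trace ℝ E (S z) * ⟪V z, ν z⟫_ℝ)) ∧
    ∫ z in U, (fderiv ℝ F z).toLinearMap.normDet *
      (LinearMap.trace ℝ E (D z) - m * ⟪V z, F z⟫_ℝ
        - LinearMap.trace ℝ E (S z) * ⟪V z, ν z⟫_ℝ) = 0 := by
  have hI : ∀ i : Fin m, Integrable (fun z => fderiv ℝ (dens e F ν V i) z
      (EuclideanSpace.single i (1 : ℝ))) ∧
      ∫ z, fderiv ℝ (dens e F ν V i) z (EuclideanSpace.single i (1 : ℝ)) = 0 := fun i =>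
    integral_fderiv_zero (h.dens_smooth e hV hVs i) (dens_compact e hVc i) _
  have hpt : ∀ z ∈ U, ∑ i : Fin m, fderiv ℝ (dens e F ν V i) z (EuclideanSpace.single i (1 : ℝ))
      = (fderiv ℝ F z).toLinearMap.normDet *
        (LinearMap.trace ℝ E (D z) - m * ⟪V z, F z⟫_ℝ
          - LinearMap.trace ℝ E (S z) * ⟪V z, ν z⟫_ℝ) := by
    intro z hz
    have hp := h.div_pointwise e hz (hV.contDiffAt (h.op.mem_nhds hz)) (D z) (S z) (hD z hz)
      (hD0 z hz) (hD1 z hz) (hS z hz) (hS0 z hz) (hS1 z hz)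
    have h1 : ∀ i : Fin m, fderiv ℝ (dens e F ν V i) z (EuclideanSpace.single i (1 : ℝ))
        = sgn e F ν z * fderiv ℝ (fun y => detC e (update (frame F ν y) (Sum.inl i) (V y))) z
          (EuclideanSpace.single i (1 : ℝ)) := by
      intro i
      have h2 : dens e F ν V i =ᶠ[𝓝 z]
          fun y => sgn e F ν z * detC e (update (frame F ν y) (Sum.inl i) (V y)) := by
        filter_upwards [h.sgn_eventually e hz] with y hy
        unfold dens
        rw [hy]
      rw [h2.fderiv_eq]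
      have h3 : DifferentiableAt ℝ
          (fun y => detC e (update (frame F ν y) (Sum.inl i) (V y))) z := by
        have h2 : ContDiffAt ℝ 1 (fun y => update (frame F ν y) (Sum.inl i) (V y)) z :=
          contDiffAt_pi.2 fun k => h.smCols hz (hV.contDiffAt (h.op.mem_nhds hz)) i k
        exact ((ContinuousMultilinearMap.contDiff
          (detC e).toContinuousMultilinearMap).contDiffAt.comp z h2).differentiableAt
            (by norm_num)
      rw [fderiv_const_mul h3]
      rfl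
    simp_rw [h1]
    rw [← Finset.mul_sum, hp, ← mul_assoc, sgn_mul, h.abs_det e hz]
  refine ⟨integrable_finsetSum _ fun i _ => (hI i).1, hpt, ?_⟩
  rw [← setIntegral_congr_fun h.op.measurableSet hpt]
  have hout : ∀ z, z ∉ U → ∑ i : Fin m, fderiv ℝ (dens e F ν V i) z
      (EuclideanSpace.single i (1 : ℝ)) = 0 := by
    intro z hz
    refine Finset.sum_eq_zero fun i _ => ?_
    have h3 : dens e F ν V i =ᶠ[𝓝 z] fun _ => (0 : ℝ) := by
      have : z ∉ tsupport V := fun hh => hz (hVs hh)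
      filter_upwards [notMem_tsupport_iff_eventuallyEq.1 this] with y hy
      exact dens_zero e F ν V i y hy
    rw [h3.fderiv_eq]
    simp
  rw [setIntegral_eq_integral_of_forall_compl_eq_zero hout,
    integral_finsetSum _ fun i _ => (hI i).1]
  exact Finset.sum_eq_zero fun i _ => (hI i).2

/-- **Divergence theorem in a chart** of a minimal hypersurface of the unit sphere. -/
theorem IsPar.div_integral (h : IsPar U F ν) (e : OrthonormalBasis (Fin m ⊕ Fin 2) ℝ E)
    {V : EuclideanSpace ℝ (Fin m) → E} (hV : ContDiffOn ℝ 1 V U) (hVc : HasCompactSupport V)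
    (hVs : tsupport V ⊆ U) (D S : EuclideanSpace ℝ (Fin m) → E →ₗ[ℝ] E)
    (hD : ∀ z ∈ U, ∀ ξ, D z (fderiv ℝ F z ξ) = fderiv ℝ V z ξ)
    (hD0 : ∀ z ∈ U, D z (F z) = 0) (hD1 : ∀ z ∈ U, D z (ν z) = 0)
    (hS : ∀ z ∈ U, ∀ ξ, S z (fderiv ℝ F z ξ) = fderiv ℝ ν z ξ)
    (hS0 : ∀ z ∈ U, S z (F z) = 0) (hS1 : ∀ z ∈ U, S z (ν z) = 0)
    (hmin : ∀ z ∈ U, LinearMap.trace ℝ E (S z) = 0) :
    Integrable (fun z => ∑ i : Fin m,
        fderiv ℝ (dens e F ν V i) z (EuclideanSpace.single i (1 : ℝ))) ∧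
    (∀ z ∈ U, ∑ i : Fin m, fderiv ℝ (dens e F ν V i) z (EuclideanSpace.single i (1 : ℝ))
      = (fderiv ℝ F z).toLinearMap.normDet *
        (LinearMap.trace ℝ E (D z) - m * ⟪V z, F z⟫_ℝ)) ∧
    ∫ z in U, (fderiv ℝ F z).toLinearMap.normDet *
      (LinearMap.trace ℝ E (D z) - m * ⟪V z, F z⟫_ℝ) = 0 := by
  obtain ⟨h1, h2, h3⟩ := h.div_integral_gen e hV hVc hVs D S hD hD0 hD1 hS hS0 hS1
  have hEq : ∀ z ∈ U, (fderiv ℝ F z).toLinearMap.normDet *
        (LinearMap.trace ℝ E (D z) - m * ⟪V z, F z⟫_ℝ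
          - LinearMap.trace ℝ E (S z) * ⟪V z, ν z⟫_ℝ)
      = (fderiv ℝ F z).toLinearMap.normDet *
        (LinearMap.trace ℝ E (D z) - m * ⟪V z, F z⟫_ℝ) := by
    intro z hz
    rw [hmin z hz, zero_mul, sub_zero]
  refine ⟨h1, fun z hz => (h2 z hz).trans (hEq z hz), ?_⟩
  rw [← h3]
  exact setIntegral_congr_fun h.op.measurableSet fun z hz => (hEq z hz).symm

/-- **Divergence theorem in a chart, ambient form.** For a `C^1` function `G` on `E` such that
`G ∘ F` is supported in a compact subset `K` of `U`, and a fixed vector `X`: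
`∫_U J (dG(P X) - m G ⟨X, F⟩) = 0`, `P` the projection onto the tangent space. -/
theorem IsPar.div_ambient (h : IsPar U F ν) (e : OrthonormalBasis (Fin m ⊕ Fin 2) ℝ E)
    (S : EuclideanSpace ℝ (Fin m) → E →ₗ[ℝ] E)
    (hS : ∀ z ∈ U, ∀ ξ, S z (fderiv ℝ F z ξ) = fderiv ℝ ν z ξ)
    (hS0 : ∀ z ∈ U, S z (F z) = 0) (hS1 : ∀ z ∈ U, S z (ν z) = 0)
    (hmin : ∀ z ∈ U, LinearMap.trace ℝ E (S z) = 0)
    {G : E → ℝ} (hG : ContDiff ℝ 1 G) {K : Set (EuclideanSpace ℝ (Fin m))} (hK : IsCompact K)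
    (hKU : K ⊆ U) (hGK : ∀ z ∈ U, z ∉ K → G (F z) = 0) (X : E) :
    IntegrableOn (fun z => (fderiv ℝ F z).toLinearMap.normDet *
      (fderiv ℝ G (F z) (X - ⟪X, F z⟫_ℝ • F z - ⟪X, ν z⟫_ℝ • ν z) - m * (G (F z) * ⟪X, F z⟫_ℝ))) U ∧
    ∫ z in U, (fderiv ℝ F z).toLinearMap.normDet *
      (fderiv ℝ G (F z) (X - ⟪X, F z⟫_ℝ • F z - ⟪X, ν z⟫_ℝ • ν z)
        - m * (G (F z) * ⟪X, F z⟫_ℝ)) = 0 := by
  classical
  have : FiniteDimensional ℝ E := Module.Basis.finiteDimensional_of_finite e.toBasis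
  set V : EuclideanSpace ℝ (Fin m) → E := fun z => if z ∈ U then G (F z) • X else 0 with hVdef
  have hVU : ∀ z ∈ U, V =ᶠ[𝓝 z] fun y => G (F y) • X := by
    intro z hz
    filter_upwards [h.op.mem_nhds hz] with y hy
    simp [hVdef, hy]
  have hV : ContDiffOn ℝ 1 V U := by
    intro z hz
    have h1 : ContDiffAt ℝ 1 (fun y => G (F y) • X) z :=
      (hG.contDiffAt.comp z ((h.smF.contDiffAt (h.op.mem_nhds hz)).of_le (by norm_num))).smul
        contDiffAt_const
    exact (h1.congr_of_eventuallyEq (hVU z hz)).contDiffWithinAt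
  have hsupp : Function.support V ⊆ K := by
    intro z hz
    rw [Function.mem_support] at hz
    by_contra hzK
    apply hz
    by_cases hzU : z ∈ U
    · simp [hVdef, hzU, hGK z hzU hzK]
    · simp [hVdef, hzU]
  have hts : tsupport V ⊆ K := closure_minimal hsupp hK.isClosed
  have hVc : HasCompactSupport V := hK.of_isClosed_subset (isClosed_tsupport V) hts
  set P : EuclideanSpace ℝ (Fin m) → E →L[ℝ] E := fun z =>
    ContinuousLinearMap.id ℝ E - (innerSL ℝ (F z)).smulRight (F z)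
      - (innerSL ℝ (ν z)).smulRight (ν z) with hP
  have hPapp : ∀ z y, P z y = y - ⟪F z, y⟫_ℝ • F z - ⟪ν z, y⟫_ℝ • ν z := by
    intro z y; simp [hP]
  set D : EuclideanSpace ℝ (Fin m) → E →ₗ[ℝ] E := fun z =>
    ((fderiv ℝ G (F z) ∘L P z).toLinearMap).smulRight X with hD
  have hDapp : ∀ z y, D z y = (fderiv ℝ G (F z) (P z y)) • X := by
    intro z y; simp [hD]
  have hdV : ∀ z ∈ U, ∀ ξ, fderiv ℝ V z ξ = (fderiv ℝ G (F z) (fderiv ℝ F z ξ)) • X := by
    intro z hz ξ
    rw [(hVU z hz).fderiv_eq]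
    have hGd : DifferentiableAt ℝ G (F z) := hG.differentiable (by norm_num) _
    have h2 : HasFDerivAt (fun y => G (F y)) ((fderiv ℝ G (F z)) ∘L (fderiv ℝ F z)) z :=
      hGd.hasFDerivAt.comp z (h.diffF hz).hasFDerivAt
    rw [(h2.smul_const X).fderiv]
    simp
  have main := h.div_integral e hV hVc (hts.trans hKU) D S
    (by
      intro z hz ξ
      rw [hDapp, hdV z hz, hPapp]
      rw [real_inner_comm, h.dFF hz, real_inner_comm (fderiv ℝ F z ξ) (ν z), h.dFν z hz]
      simp)
    (by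
      intro z hz
      rw [hDapp, hPapp, real_inner_self_eq_norm_sq, h.nF z hz, real_inner_comm, h.Fν z hz]
      simp)
    (by
      intro z hz
      rw [hDapp, hPapp, real_inner_self_eq_norm_sq, h.nν z hz, h.Fν z hz]
      simp)
    hS hS0 hS1 hmin
  have hEq : ∀ z ∈ U, (fderiv ℝ F z).toLinearMap.normDet *
      (LinearMap.trace ℝ E (D z) - m * ⟪V z, F z⟫_ℝ)
      = (fderiv ℝ F z).toLinearMap.normDet *
      (fderiv ℝ G (F z) (X - ⟪X, F z⟫_ℝ • F z - ⟪X, ν z⟫_ℝ • ν z)
        - m * (G (F z) * ⟪X, F z⟫_ℝ)) := by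
    intro z hz
    have h1 : LinearMap.trace ℝ E (D z) = fderiv ℝ G (F z) (P z X) := by
      simp only [hD]
      rw [LinearMap.trace_smulRight]
      rfl
    rw [h1, hPapp]
    have h2 : V z = G (F z) • X := by simp [hVdef, hz]
    rw [h2, inner_smul_left, real_inner_comm X (F z), real_inner_comm X (ν z)]
    rfl
  obtain ⟨m1, m2, m3⟩ := main
  constructor
  · refine m1.integrableOn.congr_fun ?_ h.op.measurableSet
    intro z hz
    exact (m2 z hz).trans (hEq z hz)
  · rw [← m3]
    exact setIntegral_congr_fun h.op.measurableSet fun z hz => (hEq z hz).symm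

end Chart

end Idx47
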